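import Pool.Agent.H65.AP.Targets
import Pool.Agent.H62.IC.CSB

/-!
# CSE: the edge of the larger crack is contained in the smaller crack
-/

set_option autoImplicit false

open MeasureTheory Set Filter Topology Metric
open scoped ENNReal NNReal ContDiff RealInnerProductSpace

namespace Pool.Agent.H62.AP

open Pool.Agent.H94.IC Pool.Agent.H94.AC Pool.Agent.H92.CK Pool.Agent.H65.AP

/-- CSE -/
theorem pf_CSE (hCNX : T_CNX) (hSQI : T_SQI) (hEDW : T_EDW) (hTAN : T_TAN) (hSIY : T_SIY)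
    (hGPE : T_GPE) (hRMG : T_RMG) (hINC : T_INC) (hLOC : T_LOC) (hNTV : T_NTV) (hWNS : T_WNS)
    (hANL : T_ANL) (hNLS : T_NLS) : T_CSE := by
  intro N Ω S S' σ ν ψ h h' τ τ' hΩ hσ hFam hS hS' hh hSol hh' hSol' heq hNG hSS' q0 hq0
  by_contra hq0S
  have hS'0 : volume S' = 0 := (hNLS Ω S').1 hS'
  have hS'c : IsCompact S' := hS'.cpt
  have hS'Ω : S' ⊆ Ω := hS'.sub
  have hSc : IsClosed S := hS.cpt.isClosed
  have hO : IsOpen (Ω \ S) := hΩ.op.sdiff hSc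
  have hO' : IsOpen (Ω \ S') := hΩ.op.sdiff hS'c.isClosed
  have hq0S' : q0 ∈ S' := hq0.1
  have hq0Ω : q0 ∈ Ω := hS'Ω hq0S'
  have hq0O : q0 ∈ Ω \ S := ⟨hq0Ω, hq0S⟩
  -- the complement of the crack is connected
  have hpre : IsPreconnected (Ω \ S) := (hCNX Ω S hΩ.op hΩ.conn hS).isPreconnected
  have hNT : NonTriv (Ω \ S) h := hNTV N Ω S σ ν ψ h τ hΩ hσ hFam.bar hS.cpt hS.sub hh hSol
  obtain ⟨_, hrel, hANall⟩ := hINC N (Ω \ S) h hO hh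
  set Y := Inv (Ω \ S) h with hY
  have hAN : ∀ p ∈ Ω \ S, AN Y p := (hANall hpre hNT).1
  -- a good sign function near the point
  obtain ⟨hR1, -, -⟩ := hRMG Y (Ω \ S) hO hAN
  obtain ⟨W', s, hW'o, hqW', hW'sub, hGood⟩ := hR1 q0 hq0O (Ω \ S) (hO.mem_nhds hq0O)
  obtain ⟨W, hWo, hqW, hWN, hWconn, hWS'conn⟩ := hEDW Ω S' q0 hS' hq0 (W' ∩ (Ω \ S))
    ((hW'o.inter hO).mem_nhds ⟨hqW', hq0O⟩)
  have hWW' : W ⊆ W' := fun x hx => (hWN hx).1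
  have hWO : W ⊆ Ω \ S := fun x hx => (hWN hx).2
  -- charts
  have hchart : ∀ p ∈ intPts S', p ∈ W →
      ∃ Ψ : OpenPartialHomeomorph E E, p ∈ Ψ.source ∧ (Ψ p) 2 = 0 ∧
        Ψ.source ⊆ W ∧ ∀ x ∈ Ψ.source, (Ψ x) 2 = 0 → x ∈ Y := by
    rintro p ⟨hpS', Ψ, hpΨ, hp0, hΨs, hΨt, hΨS⟩ hpW
    set Θ : OpenPartialHomeomorph E E := Ψ.restrOpen W hWo with hΘ
    have hsrc : Θ.source = Ψ.source ∩ W := rfl
    have hΘs : ContDiffOn ℝ ∞ Θ Θ.source := hΨs.mono (by rw [hsrc]; exact inter_subset_left)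
    have hΘt : ContDiffOn ℝ ∞ Θ.symm Θ.target := hΨt.mono (by
      intro y hy
      exact hy.1)
    have hΘW : Θ.source ⊆ W := by
      rw [hsrc]
      exact inter_subset_right
    have hΘS : ∀ x ∈ Θ.source, x ∈ S' ↔ (Θ x) 2 = 0 := by
      intro x hx
      rw [hsrc] at hx
      rw [hΨS x hx.1]
      constructor
      · exact fun h1 => h1.1
      · exact fun h1 => ⟨h1, fun h2 => absurd h2 id⟩
    have hpΘ : p ∈ Θ.source := by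
      rw [hsrc]
      exact ⟨hpΨ, hpW⟩
    have hp2 : (Θ p) 2 = 0 := (hΘS p hpΘ).1 hpS'
    refine ⟨Θ, hpΘ, hp2, hΘW, ?_⟩
    have hΘΩ : Θ.source ⊆ Ω := fun x hx => (hWO (hΘW hx)).1
    have htan : ∀ i, ∀ q ∈ Θ.source, (Θ q) 2 = 0 →
        ⟪gr (h i) q, gr (fun x => (Θ x) 2) q⟫ = 0 := by
      intro i q hq hq0
      have hWN : WN Ω S' (h' i) :=
        hWNS Ω S' σ ν (ψ i) (h' i) (τ' i) hΩ.op hΩ.bdd hσ hS'c hS'Ω (hh' i) (hSol' i)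
      exact hTAN Ω S' (Ω \ S) (h' i) (h i) Θ hΩ.op hS'c.isClosed hO hWN (hh i)
        (hΘW.trans hWO) hΘΩ hΘs hΘt hΘS
        (fun x hx hxS' => (heq i x (hΘΩ hx) (hWO (hΘW hx)).2 hxS').symm) q hq ((hΘS q hq).2 hq0)
    exact hSIY N (Ω \ S) h Θ hO hh (hΘW.trans hWO) hΘs hΘt htan
  have hdens : S' ⊆ closure (intPts S') := hSQI Ω S' hS'
  -- the crack is invisible in W
  have hS'Y : ∀ x ∈ W, x ∈ S' → x ∈ Y := by
    intro x hxW hxS'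
    by_contra hxY
    have h1 := hrel x (hWO hxW) hxY
    have h2 : W ∩ {z | z ∉ Y} ∈ 𝓝 x := inter_mem (hWo.mem_nhds hxW) h1
    obtain ⟨p, ⟨hpW, hpY⟩, hpI⟩ := mem_closure_iff_nhds.1 (hdens hxS') _ h2
    obtain ⟨Ψ, h3, h4, _, h6⟩ := hchart p hpI hpW
    exact hpY (h6 _ h3 h4)
  -- a graph point in W
  obtain ⟨pf, hpfW, hpfI⟩ := mem_closure_iff_nhds.1 (hdens hq0S') W (hWo.mem_nhds hqW)
  obtain ⟨Ψ, hΨ1, hΨ2, hΨ3, hΨ4⟩ := hchart pf hpfI hpfW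
  obtain ⟨q1, hq1W, hq1⟩ := hGPE Y Ψ pf hΨ1 hΨ2 hΨ4 (fun x hx => hAN x (hWO (hΨ3 hx))) W
    (hWo.mem_nhds hpfW)
  have hflip : Flip Y s q1 := hGood.flip q1 (hWW' hq1W) hq1
  -- off the crack
  set V := W \ S' with hV
  have hVo : IsOpen V := hWo.sdiff hS'c.isClosed
  have hVO : V ⊆ Ω \ S := fun x hx => hWO hx.1
  have hVO' : V ⊆ Ω \ S' := fun x hx => ⟨(hWO hx.1).1, hx.2⟩
  have hLC : LC Y V s := fun x hx => hGood.lc x ⟨hWW' hx.1.1, hx.2⟩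
  have hexists : ∃ q2 ∈ V, GrPt Y q2 := by
    by_contra hno
    push Not at hno
    obtain ⟨-, -, hR3⟩ := hRMG Y V hVo (fun p hp => hAN p (hVO hp))
    obtain ⟨c, hc⟩ := (hR3 s hLC (fun q hq hgr => absurd hgr (hno q hq))).2 hWS'conn
    obtain ⟨c', ⟨x1, hx1W, hx1Y, hx1⟩, ⟨x2, hx2W, hx2Y, hx2⟩⟩ :=
      Pool.Agent.H62.IC.flip_both Y s q1 W (hWo.mem_nhds hq1W) hflip
    have h1 := hc x1 ⟨⟨hx1W, fun h => hx1Y (hS'Y x1 hx1W h)⟩, hx1Y⟩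
    have h2 := hc x2 ⟨⟨hx2W, fun h => hx2Y (hS'Y x2 hx2W h)⟩, hx2Y⟩
    rw [hx1] at h1
    rw [hx2, ← h1] at h2
    have h3 : ((-c' : ℤˣ) : ℤ) = (c' : ℤ) := by rw [h2]
    rw [Units.val_neg] at h3
    have h4 : (c' : ℤ) ≠ 0 := c'.ne_zero
    omega
  obtain ⟨q2, hq2V, hq2⟩ := hexists
  have hq2n : (Ω \ S) ∩ (Ω \ S') ∈ 𝓝 q2 := (hO.inter hO').mem_nhds ⟨hVO hq2V, hVO' hq2V⟩
  have hYY' : Inv (Ω \ S') h' ∩ ((Ω \ S) ∩ (Ω \ S')) = Y ∩ ((Ω \ S) ∩ (Ω \ S')) := by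
    ext x
    constructor
    · rintro ⟨h1, h2⟩
      refine ⟨?_, h2⟩
      exact (hLOC N (Ω \ S) (Ω \ S') h h' x hO hO' h2.1 h2.2
        (fun i z hz => heq i z hz.1.1 hz.1.2 hz.2.2)).2 h1
    · rintro ⟨h1, h2⟩
      refine ⟨?_, h2⟩
      exact (hLOC N (Ω \ S) (Ω \ S') h h' x hO hO' h2.1 h2.2
        (fun i z hz => heq i z hz.1.1 hz.1.2 hz.2.2)).1 h1
  have hgr := (hANL Y (Inv (Ω \ S') h') _ q2 hq2n).2.2 hYY' hq2
  exact hNG q2 hgr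

end Pool.Agent.H62.AP
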