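import Pool.Agent.H65.AP.Targets

/-!
# CSP: a crack with the same measurements is contained in a crack without graph points
-/

set_option autoImplicit false

open MeasureTheory Set Filter Topology Metric
open scoped ENNReal NNReal ContDiff RealInnerProductSpace

namespace Pool.Agent.H62.AP

open Pool.Agent.H94.IC Pool.Agent.H94.AC Pool.Agent.H92.CK Pool.Agent.H65.AP

/-- CSP -/
theorem pf_CSP (hCNX : T_CNX) (hSQI : T_SQI) (hTAN : T_TAN) (hSIY : T_SIY) (hGPE : T_GPE)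
    (hINC : T_INC) (hNTV : T_NTV) (hWNS : T_WNS) : T_CSP := by
  intro N Ω S S' σ ν ψ h h' τ τ' hΩ hσ hFam hS hS' hh hSol hh' hSol' heq hNG
  have hS'c : IsCompact S' := hS'.cpt
  have hS'Ω : S' ⊆ Ω := hS'.sub
  have hsub : intPts S ⊆ S' := by
    rintro p ⟨hpS, Ψ, hpΨ, hp0, hΨs, hΨt, hΨS⟩
    by_contra hpS'
    have hO : IsOpen (Ω \ S') := hΩ.op.sdiff hS'c.isClosed
    have hpO : p ∈ Ω \ S' := ⟨hS.sub hpS, hpS'⟩
    set Θ : OpenPartialHomeomorph E E := Ψ.restrOpen (Ω \ S') hO with hΘ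
    have hsrc : Θ.source = Ψ.source ∩ (Ω \ S') := rfl
    have hΘs : ContDiffOn ℝ ∞ Θ Θ.source := hΨs.mono (by rw [hsrc]; exact inter_subset_left)
    have hΘt : ContDiffOn ℝ ∞ Θ.symm Θ.target := hΨt.mono (by
      intro y hy
      exact hy.1)
    have hΘO : Θ.source ⊆ Ω \ S' := by
      rw [hsrc]
      exact inter_subset_right
    have hΘS : ∀ x ∈ Θ.source, x ∈ S ↔ (Θ x) 2 = 0 := by
      intro x hx
      rw [hsrc] at hx
      rw [hΨS x hx.1]
      constructor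
      · exact fun h1 => h1.1
      · exact fun h1 => ⟨h1, fun h2 => absurd h2 id⟩
    have hpΘ : p ∈ Θ.source := by
      rw [hsrc]
      exact ⟨hpΨ, hpO⟩
    have htan : ∀ i, ∀ q ∈ Θ.source, (Θ q) 2 = 0 →
        ⟪gr (h' i) q, gr (fun x => (Θ x) 2) q⟫ = 0 := by
      intro i q hq hq0
      have hWN : WN Ω S (h i) :=
        hWNS Ω S σ ν (ψ i) (h i) (τ i) hΩ.op hΩ.bdd hσ hS.cpt hS.sub (hh i) (hSol i)
      exact hTAN Ω S (Ω \ S') (h i) (h' i) Θ hΩ.op hS.cpt.isClosed hO hWN (hh' i) hΘO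
        (hΘO.trans sdiff_subset) hΘs hΘt hΘS
        (fun x hx hxS => heq i x (hΘO hx).1 hxS (hΘO hx).2) q hq ((hΘS q hq).2 hq0)
    have hinv := hSIY N (Ω \ S') h' Θ hO hh' hΘO hΘs hΘt htan
    have hAN := ((hINC N (Ω \ S') h' hO hh').2.2
      ((hCNX Ω S' hΩ.op hΩ.conn hS').isPreconnected)
      (hNTV N Ω S' σ ν ψ h' τ' hΩ hσ hFam.bar hS'c hS'Ω hh' hSol')).1
    have hp2 : (Θ p) 2 = 0 := (hΘS p hpΘ).1 hpS
    obtain ⟨q, _, hq⟩ := hGPE (Inv (Ω \ S') h') Θ p hpΘ hp2 (fun x hx hx2 => hinv x hx hx2)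
      (fun x hx => hAN x (hΘO hx)) univ univ_mem
    exact hNG q hq
  exact (hSQI Ω S hS).trans (closure_minimal hsub hS'c.isClosed)

end Pool.Agent.H62.AP
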